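import Pool.Agent.TH280.LS.StmC
import Pool.Agent.TH312.LS_ONE

set_option autoImplicit false

/-! # Local smoothing: the cosine and sine propagators, with the gain from large masses -/

open MeasureTheory Set
open scoped ENNReal

namespace Pool.Agent.TH346.ONEK

open Pool.Agent.TH280.LS Pool.Agent.TH312.ONE

lemma sum_KK (h : S_SUMK) (s1 s2 A : ℝ) (hs : 0 < s1) (hs2 : 0 ≤ s2) (hA : 0 < A) :
    ∃ C : ℝ, 0 < C ∧
    ∀ (a : ℝ) (w : ℝ → ℝ) (G : ℝ → ℂ), 0 < a → SyK (s1 + s2) A w →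
    Integrable (fun ξ => w (ra a ξ)) → Integrable G →
    ∫⁻ t in Icc (-2 : ℝ) 2, ∫⁻ x : ℝ, ‖Vx a (fun ξ => ((w (ra a ξ) : ℝ) : ℂ)) G t x‖ₑ ^ 4 ≤
      ENNReal.ofReal (C * (1 + a) ^ (-(4 * s2))) * ∫⁻ x : ℝ, ‖G x‖ₑ ^ 4 := by
  obtain ⟨C, hC, h1⟩ := h s1 s2 hs hs2
  refine ⟨A ^ 4 * C, by positivity, fun a w G ha hw hi hG => ?_⟩
  have hsy : Sy (s1 + s2) (fun r => ((w r / A : ℝ) : ℂ)) := by
    constructor
    · intro r hr
      rw [Complex.norm_real, Real.norm_eq_abs, abs_div, abs_of_pos hA, div_le_iff₀ hA, mul_comm]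
      exact hw.1 r hr
    · intro r r' hr hrr
      rw [← Complex.ofReal_sub, Complex.norm_real, Real.norm_eq_abs, ← sub_div, abs_div,
        abs_of_pos hA, div_le_iff₀ hA, mul_comm]
      exact hw.2 r r' hr hrr
  have h2 := h1 a (fun r => ((w r / A : ℝ) : ℂ)) G ha hsy (hi.div_const A).ofReal hG
  have e : ∀ t x, Vx a (fun ξ => ((w (ra a ξ) : ℝ) : ℂ)) G t x =
      (A : ℂ) * Vx a (fun ξ => (fun r => ((w r / A : ℝ) : ℂ)) (ra a ξ)) G t x := by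
    intro t x
    unfold Vx
    rw [← integral_const_mul]
    congr 1
    funext ξ
    have hA' : (A : ℂ) ≠ 0 := by exact_mod_cast hA.ne'
    push_cast
    field_simp
  have e2 : ‖(A : ℂ)‖ₑ = ENNReal.ofReal A := by
    rw [← ofReal_norm, Complex.norm_real, Real.norm_eq_abs, abs_of_pos hA]
  simp_rw [e, enorm_mul, mul_pow, e2]
  have h3 : ∀ t, ∫⁻ x : ℝ, ENNReal.ofReal A ^ 4 *
      ‖Vx a (fun ξ => ((w (ra a ξ) / A : ℝ) : ℂ)) G t x‖ₑ ^ 4 =
      ENNReal.ofReal A ^ 4 * ∫⁻ x : ℝ,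
      ‖Vx a (fun ξ => ((w (ra a ξ) / A : ℝ) : ℂ)) G t x‖ₑ ^ 4 :=
    fun t => lintegral_const_mul' _ _ (by finiteness)
  simp_rw [h3]
  have hp : 0 ≤ C * (1 + a) ^ (-(4 * s2)) := by positivity
  rw [lintegral_const_mul' _ _ (by finiteness), mul_assoc (A ^ 4),
    ENNReal.ofReal_mul (by positivity), ENNReal.ofReal_pow hA.le, mul_assoc]
  gcongr

/-- the two propagators of the wave equation, with the gain from large masses -/
theorem onek_thm : S_SUMK → S_ONEK := by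
  intro h s1 s2 hs1 hs2
  obtain ⟨s, hs'⟩ : ∃ s, s = s1 + s2 := ⟨_, rfl⟩
  have hs : 0 < s := by linarith
  rw [← hs']
  obtain ⟨A1, hA1, hw1⟩ := syk_wa s hs
  obtain ⟨A2, hA2, hw2⟩ := syk_wb s hs
  obtain ⟨A3, hA3, hw3⟩ := syk_wa (s + 1) (by linarith)
  obtain ⟨C1, hC1, h1⟩ := sum_KK h s1 s2 A1 hs1 hs2 hA1
  obtain ⟨C2, hC2, h2⟩ := sum_KK h s1 s2 A2 hs1 hs2 hA2
  obtain ⟨C3, hC3, h3⟩ := sum_KK h s1 s2 A3 hs1 hs2 hA3
  rw [← hs'] at h1 h2 h3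
  refine ⟨(C1 + C1) + 16 * (C2 + C2 + 64 * C3), by positivity,
    fun a τ G ha hτ hτ1 hG => ?_⟩
  obtain ⟨q, hq⟩ : ∃ q : ℝ, q = (1 + a) ^ (-(4 * s2)) := ⟨_, rfl⟩
  have hqp : 0 < q := by rw [hq]; positivity
  have g1 := h1 a (wa τ s) G ha (hw1 τ hτ hτ1) (integrable_wa hτ hs) hG
  have g2 := h2 a (fun r => 2 * Real.pi * r * wa τ (s + 1) r) G ha (hw2 τ hτ hτ1)
    (integrable_wb hτ hs) hG
  have g3 := h3 a (wa τ (s + 1)) G ha ((hw3 τ hτ hτ1).mono (by linarith) hA3.le)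
    (integrable_wa hτ (by linarith)) hG
  rw [← hq] at g1 g2 g3 ⊢
  refine ⟨?_, ?_⟩
  · refine (cos_part hτ hs hG g1).trans ?_
    rw [← ENNReal.ofReal_add (by positivity) (by positivity)]
    refine mul_le_mul' (ENNReal.ofReal_le_ofReal ?_) le_rfl
    rw [← add_mul]
    refine mul_le_mul_of_nonneg_right ?_ hqp.le
    have : 0 ≤ 16 * (C2 + C2 + 64 * C3) := by positivity
    linarith
  · refine (sin_part ha hτ hs hG g2 g3).trans ?_
    refine mul_le_mul' ?_ le_rfl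
    have e0 : ∀ D2 D3 : ℝ, 0 < D2 → 0 < D3 →
        16 * (ENNReal.ofReal D2 + ENNReal.ofReal D2 + 64 * ENNReal.ofReal D3) =
        ENNReal.ofReal (16 * (D2 + D2 + 64 * D3)) := by
      intro D2 D3 hD2 hD3
      rw [ENNReal.ofReal_mul (by norm_num), ENNReal.ofReal_add (by positivity) (by positivity),
        ENNReal.ofReal_add hD2.le hD2.le, ENNReal.ofReal_mul (by norm_num)]
      norm_num
    rw [e0 _ _ (mul_pos hC2 hqp) (mul_pos hC3 hqp)]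
    refine ENNReal.ofReal_le_ofReal ?_
    have e3 : 16 * (C2 * q + C2 * q + 64 * (C3 * q)) = (16 * (C2 + C2 + 64 * C3)) * q := by ring
    rw [e3]
    refine mul_le_mul_of_nonneg_right ?_ hqp.le
    linarith

end Pool.Agent.TH346.ONEK
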