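import Pool.Agent.TH981.SD.Stm

set_option autoImplicit false

open Pool.Agent.TH981.SD
open Finset Set Filter
open scoped BigOperators Topology Classical

namespace Pool.Agent.TH346.J2258

/-! ### Gronwall type lemmas -/

theorem gron_lower {f F g G : ℝ → ℝ} {a b : ℝ} (ha : 0 ≤ a) (hab : a ≤ b)
    (hf : ∀ t, 0 ≤ t → HasDerivWithinAt f (F t) (Set.Ici 0) t)
    (hg : ∀ t, HasDerivAt g (G t) t) (h : ∀ t, a ≤ t → t ≤ b → G t * f t ≤ F t) :
    Real.exp (g b - g a) * f a ≤ f b := by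
  have hcont : ContinuousOn (fun t => f t * Real.exp (-g t)) (Set.Icc a b) := by
    intro t ht
    have h1 : ContinuousWithinAt f (Set.Icc a b) t :=
      ((hf t (ha.trans ht.1)).continuousWithinAt).mono (fun x hx => ha.trans hx.1)
    exact h1.mul ((Real.continuous_exp.continuousAt.comp
      (hg t).continuousAt.neg).continuousWithinAt)
  have hder : ∀ t ∈ interior (Set.Icc a b), HasDerivAt (fun t => f t * Real.exp (-g t))
      (F t * Real.exp (-g t) + f t * (Real.exp (-g t) * -G t)) t := by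
    intro t ht
    rw [interior_Icc] at ht
    have h0 : 0 < t := lt_of_le_of_lt ha ht.1
    exact ((hf t h0.le).hasDerivAt (Ici_mem_nhds h0)).mul ((hg t).neg.exp)
  have hm : MonotoneOn (fun t => f t * Real.exp (-g t)) (Set.Icc a b) := by
    refine monotoneOn_of_deriv_nonneg (convex_Icc a b) hcont ?_ ?_
    · intro t ht
      exact (hder t ht).differentiableAt.differentiableWithinAt
    · intro t ht
      rw [(hder t ht).deriv]
      rw [interior_Icc] at ht
      have := h t ht.1.le ht.2.le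
      have h2 := Real.exp_pos (-g t)
      nlinarith
  have h1 := hm (left_mem_Icc.2 hab) (right_mem_Icc.2 hab) hab
  simp only at h1
  have h2 := mul_le_mul_of_nonneg_right h1 (Real.exp_pos (g b)).le
  rw [mul_assoc, mul_assoc, ← Real.exp_add, ← Real.exp_add] at h2
  simp only [neg_add_cancel, Real.exp_zero, mul_one] at h2
  calc Real.exp (g b - g a) * f a = f a * Real.exp (-g a + g b) := by
        rw [mul_comm]; congr 2; ring
    _ ≤ f b := h2

theorem gron_upper {f F g G : ℝ → ℝ} {a b : ℝ} (ha : 0 ≤ a) (hab : a ≤ b)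
    (hf : ∀ t, 0 ≤ t → HasDerivWithinAt f (F t) (Set.Ici 0) t)
    (hg : ∀ t, HasDerivAt g (G t) t) (h : ∀ t, a ≤ t → t ≤ b → F t ≤ G t * f t) :
    f b ≤ Real.exp (g b - g a) * f a := by
  have h1 := gron_lower (f := fun t => -f t) (F := fun t => -F t) (g := g) (G := G) ha hab
    (fun t ht => (hf t ht).neg) hg (fun t h1 h2 => by
      have := h t h1 h2
      linarith)
  linarith

/-! ### The large parameter -/

/-- all conditions on `K` -/
structure Big {j : ℕ} (s : Sys j) : Prop where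
  F : Facts s
  L1 : 1 ≤ s.L
  c1 : 2 ≤ s.D ^ (1 - s.α - s.ep)
  c2 : (s.N : ℝ) + 1 ≤ s.D ^ s.e1
  c3 : (s.N : ℝ) ≤ s.D ^ (s.α / 2)
  c4 : 4 ≤ s.D ^ s.ep
  c5 : 3 * (s.N : ℝ) / 2 ≤ s.D ^ s.ep
  cKv : ∀ i, 2 ≤ s.Kv i
  cc1 : ∀ i t, s.tM ≤ t → cc s.Y (s.Kv i) t ≤ 2 * s.Kv i * Real.exp (-(t - s.tM))
  KD : s.K * s.D ^ s.α = s.D
  cpos : ∀ i t, 0 ≤ t → 0 < cc s.Y (s.Kv i) t

variable {j : ℕ} {s : Sys j}

theorem D_pos (h : Facts s) : 0 < s.D := by
  unfold Sys.D DK
  have := h.par.K1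
  positivity

theorem log_D (h : Facts s) : Real.log s.D = s.L := by
  unfold Sys.D DK Sys.L LK
  have := h.par.K1
  rw [Real.log_rpow (by linarith)]
  ring

theorem D_rpow (h : Facts s) (x : ℝ) : s.D ^ x = Real.exp (x * s.L) := by
  rw [Real.rpow_def_of_pos (D_pos h), log_D h, mul_comm]

theorem e0_small (h : Facts s) : s.e0 ≤ 1 / 9000 * (1 - s.α) := by
  have h1 := h.par.e0le
  have h3 : (3 : ℝ) ≤ s.N := by exact_mod_cast h.par.N3
  have h4 := h.par.a1'
  refine h1.trans ?_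
  rw [div_le_iff₀ (by positivity)]
  have h5 : (9 : ℝ) ≤ (s.N : ℝ) ^ 2 := by nlinarith
  nlinarith

theorem pw_le (h : Facts s) (n : ℕ) : (1 / (16 * (s.N : ℝ))) ^ n ≤ 1 := by
  have h3 : (3 : ℝ) ≤ s.N := by exact_mod_cast h.par.N3
  refine pow_le_one₀ (by positivity) ?_
  rw [div_le_one (by positivity)]
  linarith

theorem ep_small (h : Facts s) : s.ep ≤ s.e0 / 9000 := by
  have h1 := h.par.eple
  have h3 : (3 : ℝ) ≤ s.N := by exact_mod_cast h.par.N3
  have h0 := h.par.e0pos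
  refine h1.trans ?_
  rw [div_le_div_iff₀ (by positivity) (by norm_num)]
  have h5 : (9 : ℝ) ≤ (s.N : ℝ) ^ 2 := by nlinarith
  have h6 := pw_le h s.N
  have h7 : s.e0 * (1 / (16 * (s.N : ℝ))) ^ s.N ≤ s.e0 := by
    have := mul_le_mul_of_nonneg_left h6 h0.le
    linarith
  nlinarith

theorem ei_nonneg (h : Facts s) (i : Fin j) : 0 ≤ s.ei i := by
  unfold Sys.ei
  have h0 := h.par.e0pos
  split_ifs
  · exact le_rfl
  · positivity

theorem ei_le (h : Facts s) (i : Fin j) : s.ei i ≤ s.e0 := by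
  unfold Sys.ei
  have h0 := h.par.e0pos
  split_ifs
  · exact h0.le
  · have := mul_le_mul_of_nonneg_left (pw_le h i.val) h0.le
    linarith

/-- all the numerical bounds on the parameters -/
theorem params (h : Facts s) (i : Fin j) : 0 < s.ep ∧ s.ep ≤ 1 / 9000 ∧ s.ep ≤ s.e0 / 9000 ∧
    0 < s.e0 ∧ s.e0 ≤ 1 / 9000 ∧ 0 ≤ s.ei i ∧ s.ei i ≤ s.e0 ∧ s.gam i = 1 - s.ei i ∧
    0 < s.α ∧ s.α < 1 := by
  have h1 := ep_small h
  have h2 := e0_small h
  have h3 := h.par.a0
  have h4 := h.par.a1'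
  have h5 := h.par.eppos
  have h6 := h.par.e0pos
  refine ⟨h5, by linarith, h1, h6, by linarith, ei_nonneg h i, ei_le h i, rfl, h3, h4⟩

theorem lam_one (α : ℝ) : lam α 1 = 1 := by unfold lam; simp

theorem lam_ge (h : Facts s) {k : ℕ} (hk : 1 ≤ k) : 1 ≤ lam s.α k := by
  unfold lam
  exact Real.one_le_rpow (by exact_mod_cast hk) h.par.a0.le

theorem lam_le (h : Facts s) {k : ℕ} (hk : 1 ≤ k) (hk2 : k ≤ s.N) : lam s.α k ≤ s.N := by
  unfold lam
  have h1 : (1 : ℝ) ≤ k := by exact_mod_cast hk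
  have h2 : (k : ℝ) ≤ s.N := by exact_mod_cast hk2
  calc (k : ℝ) ^ s.α ≤ (k : ℝ) ^ (1 : ℝ) :=
        Real.rpow_le_rpow_of_exponent_le h1 h.par.a1'.le
    _ = k := Real.rpow_one _
    _ ≤ s.N := h2

theorem KvD (b : Big s) (i : Fin j) : s.Kv i * (s.D ^ s.gam i) ^ s.α = s.D ^ s.gam i := by
  have hK : 0 ≤ s.K := by linarith [b.F.par.K1]
  have hD := D_pos b.F
  unfold Sys.Kv
  rw [← Real.rpow_mul hD.le, mul_comm (s.gam i) s.α, Real.rpow_mul hD.le, ← Real.mul_rpow hK
    (by positivity), b.KD]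

/-- upper bound for `h_k` -/
theorem hk_le (b : Big s) (i : Fin j) {k : ℕ} (hk : 1 ≤ k) (hk2 : k ≤ s.N) {t : ℝ}
    (ht : s.tM ≤ t) : lam s.α k * cc s.Y (s.Kv i) t * s.V i (k + 1) t ≤
      4 * Real.exp ((1 - s.ei i) * (1 + s.ep) * s.L - (t - s.tM)) * s.V i k t := by
  obtain ⟨p1, p2, p3, p4, p5, p6, p7, p8, p9, p10⟩ := params b.F i
  have htM := b.F.tMpos
  have ht0 : 0 ≤ t := by linarith
  have hV := (b.F.hV i).pos k t ht0
  have hc := b.cpos i t ht0
  have h1 := b.F.ratio i k t hk ht0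
  have h2 := b.cc1 i t ht
  have hD := D_pos b.F
  have hKv := b.cKv i
  have hL := b.L1
  have hlam := lam_le b.F hk hk2
  have h3 : lam s.α k ≤ (s.D ^ s.gam i) ^ s.α := by
    refine hlam.trans (b.c3.trans ?_)
    rw [D_rpow b.F, D_rpow b.F, ← Real.exp_mul]
    apply Real.exp_le_exp.2
    rw [p8]
    have : s.α / 2 ≤ (1 - s.ei i) * s.α := by nlinarith
    nlinarith
  have h4 : lam s.α k * s.V i (k + 1) t ≤
      (s.D ^ s.gam i) ^ s.ep * (2 * (s.D ^ s.gam i) ^ s.α) * s.V i k t := by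
    refine h1.trans ?_
    gcongr
    linarith
  have h5 : 0 ≤ (s.D ^ s.gam i) ^ s.ep * (2 * (s.D ^ s.gam i) ^ s.α) * s.V i k t := by positivity
  have h6 : 0 ≤ lam s.α k * s.V i (k + 1) t := by
    have h7 := lam_ge b.F hk
    have h8 := (b.F.hV i).pos (k + 1) t ht0
    positivity
  calc lam s.α k * cc s.Y (s.Kv i) t * s.V i (k + 1) t
      = cc s.Y (s.Kv i) t * (lam s.α k * s.V i (k + 1) t) := by ring
    _ ≤ (2 * s.Kv i * Real.exp (-(t - s.tM))) *
        ((s.D ^ s.gam i) ^ s.ep * (2 * (s.D ^ s.gam i) ^ s.α) * s.V i k t) := by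
        gcongr
    _ = 4 * (s.Kv i * (s.D ^ s.gam i) ^ s.α) * (s.D ^ s.gam i) ^ s.ep *
        Real.exp (-(t - s.tM)) * s.V i k t := by ring
    _ = 4 * Real.exp ((1 - s.ei i) * (1 + s.ep) * s.L - (t - s.tM)) * s.V i k t := by
        rw [KvD b i, D_rpow b.F, ← Real.exp_mul, p8]
        congr 1
        rw [mul_assoc 4, mul_assoc 4, ← Real.exp_add, ← Real.exp_add]
        congr 2
        ring

theorem Vder (F : Facts s) (i : Fin j) (k : ℕ) : ∀ t, 0 ≤ t → HasDerivWithinAt (s.V i k)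
    (lam s.α k * (cc s.Y (s.Kv i) t * s.V i (k + 1) t - s.V i k t)) (Set.Ici 0) t :=
  (F.hV i).deriv k

/-- `V_1` decays at most like `e^{-t}` -/
theorem V1_decay (b : Big s) (i : Fin j) {t t' : ℝ} (ht : 0 ≤ t) (htt : t ≤ t') :
    Real.exp (-(t' - t)) * s.V i 1 t ≤ s.V i 1 t' := by
  have h := gron_lower (f := s.V i 1) (g := fun t => -t) (G := fun _ => -1) ht htt
    (Vder b.F i 1) (fun t => (hasDerivAt_id' t).neg) (fun u hu _ => by
      have hu0 := ht.trans hu
      have h1 := b.cpos i u hu0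
      have h2 := (b.F.hV i).pos (1 + 1) u hu0
      rw [lam_one]
      have := mul_pos h1 h2
      linarith)
  have e : -t' - -t = -(t' - t) := by ring
  simp only [e] at h
  exact h

theorem V1_mono (hM : S_MONO) (b : Big s) (i : Fin j) :
    MonotoneOn (s.V i 1) (Set.Icc 0 (s.tM + (1 - s.ep) * (s.gam i * s.L))) := by
  obtain ⟨p1, p2, p3, p4, p5, p6, p7, p8, p9, p10⟩ := params b.F i
  have htM := b.F.tMpos
  refine monotoneOn_of_deriv_nonneg (convex_Icc _ _) ?_ ?_ ?_
  · intro t ht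
    exact ((Vder b.F i 1 t ht.1).continuousWithinAt).mono (fun x hx => hx.1)
  · intro t ht
    rw [interior_Icc] at ht
    exact ((Vder b.F i 1 t ht.1.le).hasDerivAt
      (Ici_mem_nhds ht.1)).differentiableAt.differentiableWithinAt
  · intro t ht
    rw [interior_Icc] at ht
    rw [((Vder b.F i 1 t ht.1.le).hasDerivAt (Ici_mem_nhds ht.1)).deriv, lam_one, one_mul]
    rcases le_or_gt t s.tM with h | h
    · have hK1 : 1 ≤ s.Kv i := by linarith [b.cKv i]
      have h2 : 1 ≤ s.Kv i * s.Y 1 s.tM := by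
        rw [b.F.htM]; linarith [b.cKv i]
      obtain ⟨h3, h4⟩ := hM s.α s.z (s.Kv i) s.Y (s.V i) p9 p10 (by linarith [b.F.z2]) b.F.z1 hK1
        b.F.hY (b.F.hV i) s.tM htM.le h2 t ht.1.le h
      have h5 := (h4 1 le_rfl).1
      have h6 := (b.F.hV i).pos (1 + 1) t ht.1.le
      nlinarith
    · have h3 := b.F.grow i 1 t le_rfl (by linarith [b.F.par.N3]) h.le ht.2.le
      rw [lam_one, one_mul] at h3
      have h6 := (b.F.hV i).pos 1 t ht.1.le
      have h7 : 1 ≤ s.D ^ s.e1 := by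
        have h8 : (0 : ℝ) ≤ s.N := by positivity
        linarith [b.c2]
      nlinarith

theorem V1_zero (F : Facts s) (i : Fin j) : s.V i 1 0 = 1 := (F.hV i).init 1

theorem T1_bounds (b : Big s) (i : Fin j) : s.tM ≤ s.tM + (1 - s.ep) * (s.gam i * s.L) ∧
    s.tp - (s.tM + (1 - s.ep) * (s.gam i * s.L)) ≤ (2 * s.ep + s.ei i) * s.L ∧
    s.tM ≤ s.tl ∧ s.tl ≤ s.tp ∧ s.tM + 1 ≤ s.tp ∧ s.tM ≤ s.tm ∧
    s.tM + (1 - s.ep) * (s.gam i * s.L) ≤ s.tp := by
  obtain ⟨p1, p2, p3, p4, p5, p6, p7, p8, p9, p10⟩ := params b.F i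
  have hL := b.L1
  unfold Sys.tp Sys.tl Sys.tm
  rw [p8]
  have hL0 : 0 ≤ s.L := by linarith
  refine ⟨?_, ?_, ?_, ?_, ?_, ?_, ?_⟩
  · have : 0 ≤ (1 - s.ep) * ((1 - s.ei i) * s.L) :=
      mul_nonneg (by linarith) (mul_nonneg (by linarith) hL0)
    linarith
  · have h1 : 0 ≤ s.ep * s.ei i * s.L := by positivity
    linarith
  · have : 0 ≤ (1 - 2 * s.ep) * s.L := mul_nonneg (by linarith) hL0
    linarith
  · have : (1 - 2 * s.ep) * s.L ≤ (1 + s.ep) * s.L :=
      mul_le_mul_of_nonneg_right (by linarith) hL0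
    linarith
  · have : 0 ≤ s.ep * s.L := by positivity
    linarith
  · have : 0 ≤ (1 - s.ep) * s.L := mul_nonneg (by linarith) hL0
    linarith
  · have h1 : 0 ≤ s.ep * s.L := by positivity
    have h2 : 0 ≤ (1 - s.ep) * (s.ei i * s.L) :=
      mul_nonneg (by linarith) (mul_nonneg p6 hL0)
    linarith

theorem vv_big (hM : S_MONO) (b : Big s) :
  (∀ i t t', 0 ≤ t → t ≤ t' → t' ≤ s.tM + (1 - s.ep) * (s.gam i * s.L) →
    1 ≤ s.V i 1 t ∧ s.V i 1 t ≤ s.V i 1 t') ∧
  (∀ i t t', 0 ≤ t → t ≤ t' → t' ≤ s.tp → s.D ^ (-(2 * s.e0)) * s.V i 1 t ≤ s.V i 1 t') ∧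
  (∀ i, i.val = 0 → ∀ t t', s.tM ≤ t → t ≤ t' → t' ≤ s.tm →
    Real.exp ((s.D ^ s.e1 - 1) * (t' - t)) * s.V i 1 t ≤ s.V i 1 t') ∧
  (∀ i k t, 1 ≤ k → k ≤ s.N → s.tp ≤ t →
    s.V i k t ≤ Real.exp 4 * Real.exp (-(t - s.tp)) * s.V i k s.tp) ∧
  (∀ i k t, 1 ≤ k → k ≤ s.N → s.tp - 1 ≤ t → t ≤ s.tp →
    s.V i k s.tp ≤ Real.exp 11 * s.V i k t) ∧
  (∀ i k t, 1 ≤ k → k ≤ s.N → s.tl ≤ t → t ≤ s.tp →
    s.D ^ (-(2 * s.ei i) - 5 * s.ep) * s.V i k t ≤ cc s.Y (s.Kv i) t * s.V i (k + 1) t ∧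
    cc s.Y (s.Kv i) t * s.V i (k + 1) t ≤ s.D ^ (-(s.ei i) + 4 * s.ep) * s.V i k t) ∧
  (∀ i k t, 1 ≤ k → k ≤ s.N → 0 ≤ t → s.V i (k + 1) t ≤ s.D * s.V i k t) := by
  have F := b.F
  have htM := F.tMpos
  have hL := b.L1
  have hL0 : 0 ≤ s.L := by linarith
  have hD := D_pos F
  have hN : (3 : ℝ) ≤ s.N := by exact_mod_cast F.par.N3
  have part1 : ∀ i t t', 0 ≤ t → t ≤ t' → t' ≤ s.tM + (1 - s.ep) * (s.gam i * s.L) →
      1 ≤ s.V i 1 t ∧ s.V i 1 t ≤ s.V i 1 t' := by
    intro i t t' h0 h1 h2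
    have hm := V1_mono hM b i
    refine ⟨?_, hm ⟨h0, h1.trans h2⟩ ⟨h0.trans h1, h2⟩ h1⟩
    have := hm (a := 0) (b := t) ⟨le_rfl, h0.trans (h1.trans h2)⟩ ⟨h0, h1.trans h2⟩ h0
    rwa [V1_zero F] at this
  refine ⟨part1, ?_, ?_, ?_, ?_, ?_, ?_⟩
  · intro i t t' h0 h1 h2
    obtain ⟨p1, p2, p3, p4, p5, p6, p7, p8, p9, p10⟩ := params F i
    obtain ⟨q1, q2, q3, q4, q5, q6, q7⟩ := T1_bounds b i
    have hV := (F.hV i).pos 1 t h0
    set T1 := s.tM + (1 - s.ep) * (s.gam i * s.L) with hT1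
    have hexp : ∀ x : ℝ, x ≤ s.tp - T1 → s.D ^ (-(2 * s.e0)) ≤ Real.exp (-x) := by
      intro x hx
      rw [D_rpow F]
      apply Real.exp_le_exp.2
      have : (2 * s.ep + s.ei i) * s.L ≤ 2 * s.e0 * s.L :=
        mul_le_mul_of_nonneg_right (by linarith) hL0
      linarith
    rcases le_or_gt t' T1 with h3 | h3
    · have h4 := (part1 i t t' h0 h1 h3).2
      have h5 := hexp 0 (by linarith)
      rw [neg_zero, Real.exp_zero] at h5
      nlinarith
    · rcases le_or_gt t T1 with h4 | h4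
      · have h5 := (part1 i t T1 h0 h4 le_rfl).2
        have h6 := V1_decay b i (h0.trans h4) h3.le
        have h7 := hexp (t' - T1) (by linarith)
        have h8 := Real.exp_pos (-(t' - T1))
        calc s.D ^ (-(2 * s.e0)) * s.V i 1 t ≤ Real.exp (-(t' - T1)) * s.V i 1 T1 := by
              refine mul_le_mul h7 h5 hV.le h8.le
          _ ≤ _ := h6
      · have h6 := V1_decay b i h0 h1
        have h7 := hexp (t' - t) (by linarith)
        calc s.D ^ (-(2 * s.e0)) * s.V i 1 t ≤ Real.exp (-(t' - t)) * s.V i 1 t := by gcongr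
          _ ≤ _ := h6
  · intro i hi t t' h0 h1 h2
    obtain ⟨p1, p2, p3, p4, p5, p6, p7, p8, p9, p10⟩ := params F i
    have hei : s.ei i = 0 := by unfold Sys.ei; rw [if_pos hi]
    have h := gron_lower (f := s.V i 1) (g := fun t => (s.D ^ s.e1 - 1) * t)
      (G := fun _ => s.D ^ s.e1 - 1) (by linarith) h1
      (Vder F i 1) (fun t => by
        have := (hasDerivAt_id' t).const_mul (s.D ^ s.e1 - 1)
        rwa [mul_one] at this) (fun u hu hu2 => by
        have h3 := F.grow i 1 u le_rfl (by linarith [F.par.N3]) (by linarith) (by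
          rw [p8, hei, sub_zero, one_mul]
          unfold Sys.tm at h2
          linarith)
        rw [lam_one] at h3 ⊢
        linarith)
    have e : (s.D ^ s.e1 - 1) * t' - (s.D ^ s.e1 - 1) * t = (s.D ^ s.e1 - 1) * (t' - t) := by ring
    simp only [e] at h
    exact h
  · intro i k t hk hk2 ht
    obtain ⟨p1, p2, p3, p4, p5, p6, p7, p8, p9, p10⟩ := params F i
    obtain ⟨q1, q2, q3, q4, q5, q6, q7⟩ := T1_bounds b i
    have htp0 : 0 ≤ s.tp := by linarith
    have h := gron_upper (f := s.V i k) (g := fun t => -4 * Real.exp (-(t - s.tp)) - t)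
      (G := fun t => 4 * Real.exp (-(t - s.tp)) - 1) htp0 ht
      (Vder F i k) (fun t => by
        have h1 : HasDerivAt (fun t : ℝ => -(t - s.tp)) (-1) t :=
          ((hasDerivAt_id' t).sub_const s.tp).neg
        have h2 := ((h1.exp).const_mul (-4)).sub (hasDerivAt_id' t)
        refine h2.congr_deriv ?_
        ring) (fun u hu hu2 => by
        have h3 := hk_le b i hk hk2 (show s.tM ≤ u by linarith)
        have hV := (F.hV i).pos k u (by linarith)
        have hl := lam_ge F hk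
        have h4 : Real.exp ((1 - s.ei i) * (1 + s.ep) * s.L - (u - s.tM)) ≤
            Real.exp (-(u - s.tp)) := by
          apply Real.exp_le_exp.2
          unfold Sys.tp
          have : 0 ≤ s.ei i * (1 + s.ep) * s.L := by positivity
          linarith
        have h5 : 4 * Real.exp ((1 - s.ei i) * (1 + s.ep) * s.L - (u - s.tM)) * s.V i k u ≤
            4 * Real.exp (-(u - s.tp)) * s.V i k u := by gcongr
        nlinarith)
    refine h.trans ?_
    have hV := (F.hV i).pos k s.tp htp0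
    rw [← Real.exp_add]
    refine mul_le_mul_of_nonneg_right (Real.exp_le_exp.2 ?_) hV.le
    have h6 := Real.exp_pos (-(t - s.tp))
    simp only [sub_self, neg_zero, Real.exp_zero]
    linarith
  · intro i k t hk hk2 ht1 ht2
    obtain ⟨p1, p2, p3, p4, p5, p6, p7, p8, p9, p10⟩ := params F i
    obtain ⟨q1, q2, q3, q4, q5, q6, q7⟩ := T1_bounds b i
    have ht0 : 0 ≤ t := by linarith
    have h := gron_upper (f := s.V i k) (g := fun t => 11 * t)
      (G := fun _ => 11) ht0 ht2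
      (Vder F i k) (fun t => by
        have := (hasDerivAt_id' t).const_mul (11 : ℝ)
        rwa [mul_one] at this) (fun u hu hu2 => by
        have h3 := hk_le b i hk hk2 (show s.tM ≤ u by linarith)
        have hV := (F.hV i).pos k u (by linarith)
        have hl := lam_ge F hk
        have h4 : Real.exp ((1 - s.ei i) * (1 + s.ep) * s.L - (u - s.tM)) ≤
            Real.exp 1 := by
          apply Real.exp_le_exp.2
          have hu3 : s.tp - 1 ≤ u := by linarith
          unfold Sys.tp at hu3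
          have : 0 ≤ s.ei i * (1 + s.ep) * s.L := by positivity
          linarith
        have h6 := Real.exp_one_lt_d9
        have h5 : 4 * Real.exp ((1 - s.ei i) * (1 + s.ep) * s.L - (u - s.tM)) * s.V i k u ≤
            11 * s.V i k u := by
          refine mul_le_mul_of_nonneg_right ?_ hV.le
          linarith
        nlinarith)
    refine h.trans ?_
    have hV := (F.hV i).pos k t ht0
    refine mul_le_mul_of_nonneg_right (Real.exp_le_exp.2 ?_) hV.le
    linarith
  · intro i k t hk hk2 ht1 ht2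
    obtain ⟨p1, p2, p3, p4, p5, p6, p7, p8, p9, p10⟩ := params F i
    obtain ⟨q1, q2, q3, q4, q5, q6, q7⟩ := T1_bounds b i
    have htM' : s.tM ≤ t := by linarith
    have ht0 : 0 ≤ t := by linarith
    have hV := (F.hV i).pos k t ht0
    have hV1 := (F.hV i).pos (k + 1) t ht0
    have hc := b.cpos i t ht0
    have hl := lam_ge F hk
    have hlN := lam_le F hk hk2
    have hcV := mul_pos hc hV1
    constructor
    · rcases le_or_gt t (s.tM + (1 - s.ep) * (s.gam i * s.L)) with h | h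
      · have h1 := F.grow i k t hk hk2 htM' h
        have h2 : s.D ^ (-(2 * s.ei i) - 5 * s.ep) ≤ 1 := by
          rw [D_rpow F, Real.exp_le_one_iff]
          have : 0 ≤ (2 * s.ei i + 5 * s.ep) * s.L := by positivity
          linarith
        have h3 := b.c2
        -- λ c V' ≥ D^{e1} V ≥ λ V
        have h4 : lam s.α k * s.V i k t ≤ lam s.α k * (cc s.Y (s.Kv i) t * s.V i (k + 1) t) := by
          calc lam s.α k * s.V i k t ≤ s.D ^ s.e1 * s.V i k t := by
                refine mul_le_mul_of_nonneg_right ?_ hV.le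
                linarith
            _ ≤ _ := h1
            _ = _ := by ring
        have h5 : s.V i k t ≤ cc s.Y (s.Kv i) t * s.V i (k + 1) t :=
          le_of_mul_le_mul_left h4 (by linarith)
        calc s.D ^ (-(2 * s.ei i) - 5 * s.ep) * s.V i k t ≤ 1 * s.V i k t := by gcongr
          _ ≤ _ := by rw [one_mul]; exact h5
      · have h1 := F.late i k t hk hk2 h.le
        set T1 := s.tM + (1 - s.ep) * (s.gam i * s.L) with hT1
        have h2 : Real.exp (-((4 * s.ep + 2 * s.ei i) * s.L)) ≤ Real.exp (-2 * (t - T1)) := by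
          apply Real.exp_le_exp.2
          linarith
        have h3 : s.D ^ (-(2 * s.ei i) - 5 * s.ep) * s.D ^ s.ep =
            Real.exp (-((4 * s.ep + 2 * s.ei i) * s.L)) := by
          rw [D_rpow F, D_rpow F, ← Real.exp_add]
          congr 1
          ring
        have h4 := b.c5
        have h5 : 0 < s.D ^ (-(2 * s.ei i) - 5 * s.ep) := by positivity
        -- N * D^{..} ≤ 2/3 exp(..)
        have h6 : (s.N : ℝ) * s.D ^ (-(2 * s.ei i) - 5 * s.ep) ≤
            2 / 3 * Real.exp (-2 * (t - T1)) := by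
          have h7 : s.D ^ (-(2 * s.ei i) - 5 * s.ep) * (3 * (s.N : ℝ) / 2) ≤
              s.D ^ (-(2 * s.ei i) - 5 * s.ep) * s.D ^ s.ep :=
            mul_le_mul_of_nonneg_left h4 h5.le
          rw [h3] at h7
          linarith
        have h8 : (s.N : ℝ) * (s.D ^ (-(2 * s.ei i) - 5 * s.ep) * s.V i k t) ≤
            (s.N : ℝ) * (cc s.Y (s.Kv i) t * s.V i (k + 1) t) := by
          calc (s.N : ℝ) * (s.D ^ (-(2 * s.ei i) - 5 * s.ep) * s.V i k t)
              = ((s.N : ℝ) * s.D ^ (-(2 * s.ei i) - 5 * s.ep)) * s.V i k t := by ring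
            _ ≤ (2 / 3 * Real.exp (-2 * (t - T1))) * s.V i k t := by gcongr
            _ ≤ lam s.α k * cc s.Y (s.Kv i) t * s.V i (k + 1) t := h1
            _ = lam s.α k * (cc s.Y (s.Kv i) t * s.V i (k + 1) t) := by ring
            _ ≤ _ := by gcongr
        exact le_of_mul_le_mul_left h8 (by linarith)
    · have h1 := hk_le b i hk hk2 htM'
      have h2 : cc s.Y (s.Kv i) t * s.V i (k + 1) t ≤
          lam s.α k * cc s.Y (s.Kv i) t * s.V i (k + 1) t := by
        rw [mul_assoc]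
        nlinarith
      refine h2.trans (h1.trans ?_)
      refine mul_le_mul_of_nonneg_right ?_ hV.le
      have h3 : s.D ^ (-(s.ei i) + 4 * s.ep) =
          s.D ^ s.ep * Real.exp ((-(s.ei i) + 3 * s.ep) * s.L) := by
        rw [D_rpow F, D_rpow F, ← Real.exp_add]
        congr 1
        ring
      rw [h3]
      refine mul_le_mul b.c4 (Real.exp_le_exp.2 ?_) (Real.exp_pos _).le (by positivity)
      have h4 : (1 - 2 * s.ep) * s.L ≤ t - s.tM := by
        unfold Sys.tl at ht1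
        linarith
      have h5 : 0 ≤ s.ei i * s.ep * s.L := by positivity
      linarith
  · intro i k t hk hk2 ht
    obtain ⟨p1, p2, p3, p4, p5, p6, p7, p8, p9, p10⟩ := params F i
    have hV := (F.hV i).pos k t ht
    have hV1 := (F.hV i).pos (k + 1) t ht
    have hl := lam_ge F hk
    have h1 := F.ratio i k t hk ht
    have h2 : (s.D ^ s.gam i) ^ s.ep ≤ s.D ^ s.ep := by
      rw [← Real.rpow_mul hD.le, D_rpow F, D_rpow F, p8]
      apply Real.exp_le_exp.2
      have : 0 ≤ s.ei i * s.ep * s.L := by positivity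
      linarith
    have h3 : (s.D ^ s.gam i) ^ s.α ≤ s.D ^ s.α := by
      rw [← Real.rpow_mul hD.le, D_rpow F, D_rpow F, p8]
      apply Real.exp_le_exp.2
      have : 0 ≤ s.ei i * s.α * s.L := by positivity
      linarith
    have h4 : 1 ≤ s.D ^ s.α := by
      rw [D_rpow F]
      exact Real.one_le_exp (by positivity)
    have h5 : lam s.α k * s.V i (k + 1) t ≤ lam s.α k * (s.D ^ s.ep * (2 * s.D ^ s.α) *
        s.V i k t) := by
      refine h1.trans ?_
      calc (s.D ^ s.gam i) ^ s.ep * ((s.D ^ s.gam i) ^ s.α + lam s.α k) * s.V i k t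
          ≤ s.D ^ s.ep * (s.D ^ s.α + lam s.α k) * s.V i k t := by gcongr
        _ ≤ s.D ^ s.ep * (lam s.α k * (2 * s.D ^ s.α)) * s.V i k t := by
            gcongr
            nlinarith
        _ = _ := by ring
    have h6 : s.V i (k + 1) t ≤ s.D ^ s.ep * (2 * s.D ^ s.α) * s.V i k t :=
      le_of_mul_le_mul_left h5 (by linarith)
    refine h6.trans ?_
    refine mul_le_mul_of_nonneg_right ?_ hV.le
    have h7 : s.D ^ (1 - s.α - s.ep) * (s.D ^ s.ep * s.D ^ s.α) = s.D := by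
      rw [← Real.rpow_add hD, ← Real.rpow_add hD]
      have : 1 - s.α - s.ep + (s.ep + s.α) = 1 := by ring
      rw [this, Real.rpow_one]
    have h8 : 0 < s.D ^ s.ep * s.D ^ s.α := by positivity
    calc s.D ^ s.ep * (2 * s.D ^ s.α) = 2 * (s.D ^ s.ep * s.D ^ s.α) := by ring
      _ ≤ s.D ^ (1 - s.α - s.ep) * (s.D ^ s.ep * s.D ^ s.α) := by
          refine mul_le_mul_of_nonneg_right b.c1 h8.le
      _ = s.D := h7

theorem vv (h1 : S_CB) (h2 : S_MONO) (_h3 : S_TM) (_h4 : S_YF) : S_VV := by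
  intro α e0 ep e1 N j hP he1
  obtain ⟨K0, hK0⟩ := h1 α e0 ep e1 N j hP he1
  obtain ⟨a1, a2, a3, a4, a5, a6, a7, a8, a9⟩ := hP
  have hN3 : (3 : ℝ) ≤ N := by exact_mod_cast a3
  have hep : ep < 1 - α := by
    have h5 : (9 : ℝ) ≤ (N : ℝ) ^ 2 := by nlinarith
    have h6 : e0 ≤ 1 / 9000 * (1 - α) := by
      refine a7.trans ?_
      rw [div_le_iff₀ (by positivity)]
      nlinarith
    have h7 : (1 / (16 * (N : ℝ))) ^ N ≤ 1 := by
      refine pow_le_one₀ (by positivity) ?_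
      rw [div_le_one (by positivity)]
      linarith
    have h8 : ep ≤ e0 := by
      refine a9.trans ?_
      rw [div_le_iff₀ (by positivity)]
      have h9 := mul_le_mul_of_nonneg_left h7 a6.le
      nlinarith
    linarith
  have hDt : Tendsto (fun K : ℝ => DK α K) atTop atTop := by
    unfold DK
    exact tendsto_rpow_atTop (by
      have : 0 < 1 - α := by linarith
      positivity)
  have hpow : ∀ x c : ℝ, 0 < x → ∀ᶠ K : ℝ in atTop, c ≤ DK α K ^ x := fun x c hx =>
    ((tendsto_rpow_atTop hx).comp hDt).eventually_ge_atTop c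
  have hLt : ∀ᶠ K : ℝ in atTop, 1 ≤ LK α K := by
    have : Tendsto (fun K : ℝ => LK α K) atTop atTop := by
      unfold LK
      exact Real.tendsto_log_atTop.atTop_div_const (by linarith)
    exact this.eventually_ge_atTop 1
  obtain ⟨K1, hK1⟩ := eventually_atTop.1 (((hpow (1 - α - ep) 2 (by linarith)).and
    ((hpow e1 (N + 1) he1).and ((hpow (α / 2) N (by linarith)).and
      ((hpow ep 4 a8).and ((hpow ep (3 * N / 2) a8).and hLt))))).and (eventually_ge_atTop K0))
  refine ⟨K1, fun s hs1 hs2 hs3 hs4 hs5 hs6 hF => ?_⟩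
  obtain ⟨⟨b1, b2, b3, b4, b5, b6⟩, b7⟩ := hK1 s.K hs6
  obtain ⟨c1, c2, c3, c4, c5⟩ := hK0 s hs1 hs2 hs3 hs4 hs5 b7 hF
  subst hs1 hs2 hs3 hs4 hs5
  exact vv_big h2 ⟨hF, b6, b1, b2, b3, b4, b5, fun i => (c2 i).1, fun i t ht => (c3 i t ht).2.1,
    c4, fun i t ht => (c5 i t ht).2.2.2⟩

end Pool.Agent.TH346.J2258
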