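import Pool.Agent.TH346.J2258

set_option autoImplicit false

open Pool.Agent.TH981.SD
open Finset Set Filter
open scoped BigOperators Topology Classical

namespace Pool.Agent.TH346.J2261

open Pool.Agent.TH346.J2258 (D_pos log_D D_rpow e0_small ep_small params)

theorem cmp {f F g G : ℝ → ℝ} {a b : ℝ} (ha : 0 ≤ a) (hab : a ≤ b)
    (hf : ∀ t, 0 ≤ t → HasDerivWithinAt f (F t) (Set.Ici 0) t)
    (hg : ∀ t, 0 ≤ t → HasDerivWithinAt g (G t) (Set.Ici 0) t)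
    (h : ∀ t, a ≤ t → t ≤ b → F t ≤ G t) : f b ≤ f a + (g b - g a) := by
  have hm : MonotoneOn (fun t => g t - f t) (Set.Icc a b) := by
    refine monotoneOn_of_deriv_nonneg (convex_Icc a b) ?_ ?_ ?_
    · intro t ht
      exact (((hg t (ha.trans ht.1)).sub (hf t (ha.trans ht.1))).continuousWithinAt).mono
        (fun x hx => ha.trans hx.1)
    · intro t ht
      rw [interior_Icc] at ht
      have h0 : 0 < t := lt_of_le_of_lt ha ht.1
      exact (((hg t h0.le).sub (hf t h0.le)).hasDerivAt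
        (Ici_mem_nhds h0)).differentiableAt.differentiableWithinAt
    · intro t ht
      rw [interior_Icc] at ht
      have h0 : 0 < t := lt_of_le_of_lt ha ht.1
      have h2 := (((hg t h0.le).sub (hf t h0.le)).hasDerivAt (Ici_mem_nhds h0)).deriv
      have h3 : deriv (fun t => g t - f t) t = G t - F t := h2
      rw [h3]
      linarith [h t ht.1.le ht.2.le]
  have h1 := hm (left_mem_Icc.2 hab) (right_mem_Icc.2 hab) hab
  simp only at h1
  linarith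

theorem key {j : ℕ} (X A B : ℝ) (hX : 0 ≤ X) (_hA : 0 ≤ A) (hB : 0 ≤ B) (Z V V' : Fin j → ℝ)
    (hZ : ∀ i, 0 ≤ Z i) (hV : ∀ i, 0 ≤ V i) (hV' : ∀ i, V' i ≤ B * V i)
    (h : ∀ i, Z i ≤ A * V i) :
    ∑ w, X * V' w * ∏ l ∈ Finset.univ.erase w, Z l ≤ X * B * j * A ^ (j - 1) * ∏ i, V i := by
  have h1 : ∀ w : Fin j, X * V' w * ∏ l ∈ Finset.univ.erase w, Z l ≤
      X * B * A ^ (j - 1) * ∏ i, V i := by
    intro w
    have h2 : ∏ l ∈ Finset.univ.erase w, Z l ≤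
        A ^ (j - 1) * ∏ l ∈ Finset.univ.erase w, V l := by
      calc ∏ l ∈ Finset.univ.erase w, Z l ≤ ∏ l ∈ Finset.univ.erase w, (A * V l) :=
            Finset.prod_le_prod (fun i _ => hZ i) (fun i _ => h i)
        _ = _ := by
            rw [Finset.prod_mul_distrib, Finset.prod_const,
              Finset.card_erase_of_mem (Finset.mem_univ w), Finset.card_univ, Fintype.card_fin]
    have h3 : X * V' w ≤ X * (B * V w) := mul_le_mul_of_nonneg_left (hV' w) hX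
    have h4 : 0 ≤ ∏ l ∈ Finset.univ.erase w, Z l := Finset.prod_nonneg (fun i _ => hZ i)
    have h5 : 0 ≤ X * (B * V w) := mul_nonneg hX (mul_nonneg hB (hV w))
    have h6 : V w * ∏ l ∈ Finset.univ.erase w, V l = ∏ i, V i :=
      Finset.mul_prod_erase Finset.univ V (Finset.mem_univ w)
    calc X * V' w * ∏ l ∈ Finset.univ.erase w, Z l
        ≤ X * (B * V w) * (A ^ (j - 1) * ∏ l ∈ Finset.univ.erase w, V l) :=
          mul_le_mul h3 h2 h4 h5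
      _ = X * B * A ^ (j - 1) * (V w * ∏ l ∈ Finset.univ.erase w, V l) := by ring
      _ = _ := by rw [h6]
  calc ∑ w, X * V' w * ∏ l ∈ Finset.univ.erase w, Z l
      ≤ ∑ _w : Fin j, X * B * A ^ (j - 1) * ∏ i, V i := Finset.sum_le_sum (fun w _ => h1 w)
    _ = _ := by
        rw [Finset.sum_const, Finset.card_univ, Fintype.card_fin, nsmul_eq_mul]
        ring

/-- the constant -/
noncomputable def Q (j : ℕ) : ℝ := (2 : ℝ) ^ (4 * j + 40) * (j : ℝ)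

structure BE {j : ℕ} (s : Sys j) : Prop where
  F : Facts s
  L1 : 1 ≤ s.L
  LD : s.L ≤ s.D ^ s.e0
  QD : Q j ≤ s.D ^ s.e0
  e1D : 2 * (s.N : ℝ) + 13 ≤ s.D ^ s.e1
  KD : s.K * s.D ^ s.α = s.D
  vv1 : ∀ i t t', 0 ≤ t → t ≤ t' → t' ≤ s.tM + (1 - s.ep) * (s.gam i * s.L) →
    1 ≤ s.V i 1 t ∧ s.V i 1 t ≤ s.V i 1 t'
  vv2 : ∀ i t t', 0 ≤ t → t ≤ t' → t' ≤ s.tp → s.D ^ (-(2 * s.e0)) * s.V i 1 t ≤ s.V i 1 t'
  vv3 : ∀ i, i.val = 0 → ∀ t t', s.tM ≤ t → t ≤ t' → t' ≤ s.tm →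
    Real.exp ((s.D ^ s.e1 - 1) * (t' - t)) * s.V i 1 t ≤ s.V i 1 t'
  vv4 : ∀ i k t, 1 ≤ k → k ≤ s.N → s.tp ≤ t →
    s.V i k t ≤ Real.exp 4 * Real.exp (-(t - s.tp)) * s.V i k s.tp
  zb1 : ∀ i t, 0 ≤ t → t ≤ s.tp → s.Z i t ≤ s.D ^ (s.α + 3 * s.e0) * s.V i 1 t
  zb2 : ∀ i t, s.tp ≤ t → s.Z i t ≤ s.D ^ (s.α + 4 * s.e0) * s.V i 1 s.tp
  y1 : ∀ t, 0 ≤ t → t ≤ s.tM → 1 / 2 ≤ s.Y 1 t
  y2 : ∀ t, s.tM ≤ t → 1 / 2 ≤ 1 - s.Y 1 t
  ym : ∀ t, 0 ≤ t → s.Y 1 t * (1 - s.Y 1 t) ≤ m1 s.Y t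
  yd : ∀ t, 0 ≤ t → HasDerivWithinAt (s.Y 1) (-(m1 s.Y t)) (Set.Ici 0) t

variable {j : ℕ} {s : Sys j}

theorem K_eq (b : BE s) : s.K = s.D ^ (1 - s.α) := by
  have hD := D_pos b.F
  have h := b.KD
  have h1 : s.D ^ (1 - s.α) * s.D ^ s.α = s.D := by
    rw [← Real.rpow_add hD]
    simp
  have h2 : 0 < s.D ^ s.α := by positivity
  exact mul_right_cancel₀ h2.ne' (h.trans h1.symm)

theorem K_le (b : BE s) : 1 + s.K ≤ 2 * s.D ^ (1 - s.α) := by
  have h := K_eq b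
  have h2 := b.F.par.K1
  rw [← h]
  linarith

theorem P_pos (F : Facts s) {t : ℝ} (ht : 0 ≤ t) : 0 < ∏ i, s.V i 1 t :=
  Finset.prod_pos (fun i _ => (F.hV i).pos 1 t ht)

theorem y_lt (F : Facts s) {t : ℝ} (ht : 0 ≤ t) : 0 < 1 - s.Y 1 t := by
  have := F.hY.le 1 t ht
  linarith [F.z1]

theorem Am_nonneg (F : Facts s) {t : ℝ} (ht : 0 ≤ t) : 0 ≤ s.Am t := by
  unfold Sys.Am
  have := y_lt F ht
  have hD := D_pos F
  exact le_min (by positivity) zero_le_one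

theorem tims (b : BE s) : s.tM ≤ s.tl ∧ s.tl ≤ s.tm ∧ s.tm ≤ s.tp ∧ s.tp ≤ s.tM + 2 * s.L ∧
    s.L / 2 ≤ s.tl - s.tM := by
  have hL := b.L1
  have h1 := ep_small b.F
  have h2 := e0_small b.F
  have h3 := b.F.par.a0
  have h5 := b.F.par.eppos
  have hep : s.ep ≤ 1 / 9000 := by linarith
  have hL0 : 0 ≤ s.L := by linarith
  have h6 : 0 ≤ s.ep * s.L := by positivity
  have h7 : s.ep * s.L ≤ 1 / 9000 * s.L := mul_le_mul_of_nonneg_right hep hL0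
  unfold Sys.tl Sys.tm Sys.tp
  refine ⟨?_, ?_, ?_, ?_, ?_⟩ <;> nlinarith

theorem P2 (b : BE s) {t t' : ℝ} (h0 : 0 ≤ t) (h1 : t ≤ t') (h2 : t' ≤ s.tp) :
    ∏ i, s.V i 1 t ≤ s.D ^ (2 * (j : ℝ) * s.e0) * ∏ i, s.V i 1 t' := by
  have hD := D_pos b.F
  have h3 : ∀ i, s.V i 1 t ≤ s.D ^ (2 * s.e0) * s.V i 1 t' := by
    intro i
    have h4 := b.vv2 i t t' h0 h1 h2
    have h5 : s.D ^ (2 * s.e0) * s.D ^ (-(2 * s.e0)) = 1 := by
      rw [← Real.rpow_add hD]; simp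
    have h6 : 0 < s.D ^ (2 * s.e0) := by positivity
    calc s.V i 1 t = s.D ^ (2 * s.e0) * s.D ^ (-(2 * s.e0)) * s.V i 1 t := by rw [h5, one_mul]
      _ = s.D ^ (2 * s.e0) * (s.D ^ (-(2 * s.e0)) * s.V i 1 t) := by ring
      _ ≤ _ := by gcongr
  calc ∏ i, s.V i 1 t ≤ ∏ i, (s.D ^ (2 * s.e0) * s.V i 1 t') :=
        Finset.prod_le_prod (fun i _ => ((b.F.hV i).pos 1 t h0).le) (fun i _ => h3 i)
    _ = _ := by
        rw [Finset.prod_mul_distrib, Finset.prod_const, Finset.card_univ, Fintype.card_fin,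
          ← Real.rpow_natCast, ← Real.rpow_mul hD.le]
        congr 2
        ring

theorem P3 (b : BE s) {T : ℝ} (h1 : s.tl ≤ T) (h2 : T ≤ s.tp) :
    ∏ i, s.V i 1 s.tM ≤ Real.exp (-((s.D ^ s.e1 - 1) * (s.tl - s.tM))) *
      (s.D ^ (2 * (j : ℝ) * s.e0) * ∏ i, s.V i 1 T) := by
  have hD := D_pos b.F
  obtain ⟨q1, q2, q3, q4, q5⟩ := tims b
  have htM := b.F.tMpos
  set E := Real.exp (-((s.D ^ s.e1 - 1) * (s.tl - s.tM))) with hE
  have hEpos : 0 < E := Real.exp_pos _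
  have h3 : ∀ i t, s.tM ≤ t → t ≤ T → s.V i 1 t ≤ s.D ^ (2 * s.e0) * s.V i 1 T := by
    intro i t ht1 ht2
    have h4 := b.vv2 i t T (by linarith) ht2 h2
    have h5 : s.D ^ (2 * s.e0) * s.D ^ (-(2 * s.e0)) = 1 := by
      rw [← Real.rpow_add hD]; simp
    have h6 : 0 < s.D ^ (2 * s.e0) := by positivity
    calc s.V i 1 t = s.D ^ (2 * s.e0) * s.D ^ (-(2 * s.e0)) * s.V i 1 t := by rw [h5, one_mul]
      _ = s.D ^ (2 * s.e0) * (s.D ^ (-(2 * s.e0)) * s.V i 1 t) := by ring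
      _ ≤ _ := by gcongr
  have h4 : ∀ i : Fin j, s.V i 1 s.tM ≤
      (if i.val = 0 then E else 1) * (s.D ^ (2 * s.e0) * s.V i 1 T) := by
    intro i
    split_ifs with hi
    · have h5 := b.vv3 i hi s.tM s.tl le_rfl q1 q2
      have h6 := h3 i s.tl q1 h1
      have h7 : E * Real.exp ((s.D ^ s.e1 - 1) * (s.tl - s.tM)) = 1 := by
        rw [hE, ← Real.exp_add]; simp
      calc s.V i 1 s.tM = E * Real.exp ((s.D ^ s.e1 - 1) * (s.tl - s.tM)) * s.V i 1 s.tM := by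
            rw [h7, one_mul]
        _ = E * (Real.exp ((s.D ^ s.e1 - 1) * (s.tl - s.tM)) * s.V i 1 s.tM) := by ring
        _ ≤ E * s.V i 1 s.tl := by gcongr
        _ ≤ _ := by gcongr
    · rw [one_mul]
      exact h3 i s.tM le_rfl (q1.trans h1)
  have hj := b.F.par.j1
  have h5 : ∏ i : Fin j, (if i.val = 0 then E else 1) = E := by
    rw [Finset.prod_eq_single (⟨0, hj⟩ : Fin j)]
    · simp
    · intro i _ hi
      rw [if_neg]
      intro h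
      exact hi (Fin.ext h)
    · intro h
      exact absurd (Finset.mem_univ _) h
  calc ∏ i, s.V i 1 s.tM ≤ ∏ i : Fin j, ((if i.val = 0 then E else 1) *
        (s.D ^ (2 * s.e0) * s.V i 1 T)) :=
        Finset.prod_le_prod (fun i _ => ((b.F.hV i).pos 1 s.tM htM.le).le) (fun i _ => h4 i)
    _ = _ := by
        rw [Finset.prod_mul_distrib, h5, Finset.prod_mul_distrib, Finset.prod_const,
          Finset.card_univ, Fintype.card_fin, ← Real.rpow_natCast, ← Real.rpow_mul hD.le]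
        congr 3
        ring

/-- the derivative of `Eh` -/
noncomputable def Ep (s : Sys j) (t : ℝ) : ℝ := (1 + s.K) * (32 / (1 - s.Y 1 t) ^ 2) *
    ∑ w, s.x3 w t * ∏ l ∈ Finset.univ.erase w, s.Z l t

/-- power of `D` in the bounds, `t ≤ tp` -/
theorem pw1 (b : BE s) : (s.D ^ (s.α + 3 * s.e0)) ^ (j - 1) =
    s.D ^ ((s.α + 3 * s.e0) * ((j : ℝ) - 1)) := by
  have hD := D_pos b.F
  rw [← Real.rpow_natCast, ← Real.rpow_mul hD.le, Nat.cast_sub b.F.par.j1, Nat.cast_one]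

theorem pw2 (b : BE s) : (s.D ^ (s.α + 4 * s.e0)) ^ (j - 1) =
    s.D ^ ((s.α + 4 * s.e0) * ((j : ℝ) - 1)) := by
  have hD := D_pos b.F
  rw [← Real.rpow_natCast, ← Real.rpow_mul hD.le, Nat.cast_sub b.F.par.j1, Nat.cast_one]

/-- bound of the derivative before `tM` -/
theorem Ep_a (b : BE s) {t : ℝ} (h0 : 0 ≤ t) (h1 : t ≤ s.tM) :
    Ep s t ≤ (2 : ℝ) ^ (4 * j + 28) * j * s.D ^ (1 - s.α + 3 + (s.α + 3 * s.e0) * ((j : ℝ) - 1)) *
      (1 - s.Y 1 t) * ∏ i, s.V i 1 t := by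
  have hD := D_pos b.F
  obtain ⟨q1, q2, q3, q4, q5⟩ := tims b
  have hy := y_lt b.F h0
  have hA := Am_nonneg b.F h0
  have hA2 : s.Am t ≤ (2:ℝ) ^ (j + 6) * s.D * (1 - s.Y 1 t) := min_le_left _ _
  have hP := P_pos b.F h0
  have h2 := key ((2:ℝ) ^ (j + 4) * s.Am t ^ 3) (s.D ^ (s.α + 3 * s.e0)) 1 (by positivity)
    (by positivity) zero_le_one (fun i => s.Z i t) (fun i => s.V i 1 t) (fun i => s.V i 1 t)
    (fun i => b.F.Znn i t h0) (fun i => ((b.F.hV i).pos 1 t h0).le) (fun i => by simp)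
    (fun i => b.zb1 i t h0 (by linarith))
  have h3 : s.Am t ^ 3 ≤ ((2:ℝ) ^ (j + 6) * s.D * (1 - s.Y 1 t)) ^ 3 :=
    pow_le_pow_left₀ hA hA2 3
  have hK := K_le b
  have hK0 : 0 ≤ 1 + s.K := by linarith [b.F.par.K1]
  rw [pw1 b] at h2
  calc Ep s t = (1 + s.K) * (32 / (1 - s.Y 1 t) ^ 2) *
        ∑ w, (2:ℝ) ^ (j + 4) * s.Am t ^ 3 * s.V w 1 t * ∏ l ∈ Finset.univ.erase w, s.Z l t := rfl
    _ ≤ (2 * s.D ^ (1 - s.α)) * (32 / (1 - s.Y 1 t) ^ 2) *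
        ((2:ℝ) ^ (j + 4) * s.Am t ^ 3 * 1 * j * s.D ^ ((s.α + 3 * s.e0) * ((j : ℝ) - 1)) *
          ∏ i, s.V i 1 t) := by
        refine mul_le_mul (mul_le_mul_of_nonneg_right hK (by positivity)) h2 ?_ (by positivity)
        refine Finset.sum_nonneg (fun w _ => ?_)
        have h4 : 0 ≤ ∏ l ∈ Finset.univ.erase w, s.Z l t :=
          Finset.prod_nonneg (fun i _ => b.F.Znn i t h0)
        have h5 := ((b.F.hV w).pos 1 t h0).le
        positivity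
    _ ≤ (2 * s.D ^ (1 - s.α)) * (32 / (1 - s.Y 1 t) ^ 2) *
        ((2:ℝ) ^ (j + 4) * ((2:ℝ) ^ (j + 6) * s.D * (1 - s.Y 1 t)) ^ 3 * 1 * j *
          s.D ^ ((s.α + 3 * s.e0) * ((j : ℝ) - 1)) * ∏ i, s.V i 1 t) := by
        gcongr
    _ = (2 * 32 * (2:ℝ) ^ (j + 4) * ((2:ℝ) ^ (j + 6)) ^ 3) * j *
        (s.D ^ (1 - s.α) * s.D ^ 3 * s.D ^ ((s.α + 3 * s.e0) * ((j : ℝ) - 1))) *
        (1 - s.Y 1 t) * ∏ i, s.V i 1 t := by
        field_simp
    _ = _ := by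
        have e1 : (2 * 32 * (2:ℝ) ^ (j + 4) * ((2:ℝ) ^ (j + 6)) ^ 3) = (2:ℝ) ^ (4 * j + 28) := by
          rw [← pow_mul]
          have : (2 : ℝ) * 32 = 2 ^ 6 := by norm_num
          rw [this, ← pow_add, ← pow_add]
          congr 1
          ring
        have e2 : s.D ^ (1 - s.α) * s.D ^ 3 * s.D ^ ((s.α + 3 * s.e0) * ((j : ℝ) - 1)) =
            s.D ^ (1 - s.α + 3 + (s.α + 3 * s.e0) * ((j : ℝ) - 1)) := by
          rw [Real.rpow_add hD, Real.rpow_add hD]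
          norm_num
        rw [e1, e2]

/-- bound of the derivative after `tM` -/
theorem Ep_b (b : BE s) {t : ℝ} (h0 : s.tM ≤ t) (h1 : t ≤ s.tp) :
    Ep s t ≤ (2 : ℝ) ^ (j + 12) * j * s.D ^ (1 - s.α + (s.α + 3 * s.e0) * ((j : ℝ) - 1)) *
      ∏ i, s.V i 1 t := by
  have hD := D_pos b.F
  have htM := b.F.tMpos
  have ht : 0 ≤ t := by linarith
  have hy := b.y2 t h0
  have hA := Am_nonneg b.F ht
  have hA2 : s.Am t ≤ 1 := min_le_right _ _
  have hP := P_pos b.F ht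
  have h2 := key ((2:ℝ) ^ (j + 4) * s.Am t ^ 3) (s.D ^ (s.α + 3 * s.e0)) 1 (by positivity)
    (by positivity) zero_le_one (fun i => s.Z i t) (fun i => s.V i 1 t) (fun i => s.V i 1 t)
    (fun i => b.F.Znn i t ht) (fun i => ((b.F.hV i).pos 1 t ht).le) (fun i => by simp)
    (fun i => b.zb1 i t ht h1)
  have h3 : s.Am t ^ 3 ≤ 1 := pow_le_one₀ hA hA2
  have h32 : 32 / (1 - s.Y 1 t) ^ 2 ≤ 128 := by
    rw [div_le_iff₀ (by positivity)]
    nlinarith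
  have hK := K_le b
  have hK0 : 0 ≤ 1 + s.K := by linarith [b.F.par.K1]
  rw [pw1 b] at h2
  calc Ep s t = (1 + s.K) * (32 / (1 - s.Y 1 t) ^ 2) *
        ∑ w, (2:ℝ) ^ (j + 4) * s.Am t ^ 3 * s.V w 1 t * ∏ l ∈ Finset.univ.erase w, s.Z l t := rfl
    _ ≤ (2 * s.D ^ (1 - s.α)) * 128 *
        ((2:ℝ) ^ (j + 4) * s.Am t ^ 3 * 1 * j * s.D ^ ((s.α + 3 * s.e0) * ((j : ℝ) - 1)) *
          ∏ i, s.V i 1 t) := by
        refine mul_le_mul (mul_le_mul hK h32 (by positivity) (by positivity)) h2 ?_ (by positivity)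
        refine Finset.sum_nonneg (fun w _ => ?_)
        have h4 : 0 ≤ ∏ l ∈ Finset.univ.erase w, s.Z l t :=
          Finset.prod_nonneg (fun i _ => b.F.Znn i t ht)
        have h5 := ((b.F.hV w).pos 1 t ht).le
        positivity
    _ ≤ (2 * s.D ^ (1 - s.α)) * 128 *
        ((2:ℝ) ^ (j + 4) * 1 * 1 * j * s.D ^ ((s.α + 3 * s.e0) * ((j : ℝ) - 1)) *
          ∏ i, s.V i 1 t) := by
        gcongr
    _ = (2 * 128 * (2:ℝ) ^ (j + 4)) * j *
        (s.D ^ (1 - s.α) * s.D ^ ((s.α + 3 * s.e0) * ((j : ℝ) - 1))) * ∏ i, s.V i 1 t := by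
        ring
    _ = _ := by
        have e1 : (2 * 128 * (2:ℝ) ^ (j + 4)) = (2:ℝ) ^ (j + 12) := by
          have : (2 : ℝ) * 128 = 2 ^ 8 := by norm_num
          rw [this, ← pow_add]
          congr 1
          ring
        rw [e1, ← Real.rpow_add hD]

/-- bound of the derivative after `tp` -/
theorem Ep_d (b : BE s) {t : ℝ} (h0 : s.tp ≤ t) :
    Ep s t ≤ (2 : ℝ) ^ (j + 18) * j * s.D ^ (1 - s.α + (s.α + 4 * s.e0) * ((j : ℝ) - 1)) *
      (∏ i, s.V i 1 s.tp) * Real.exp (-(t - s.tp)) := by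
  have hD := D_pos b.F
  have htM := b.F.tMpos
  obtain ⟨q1, q2, q3, q4, q5⟩ := tims b
  have htp : 0 ≤ s.tp := by linarith
  have ht : 0 ≤ t := by linarith
  have hy := b.y2 t (by linarith)
  have hA := Am_nonneg b.F ht
  have hA2 : s.Am t ≤ 1 := min_le_right _ _
  have hP := P_pos b.F htp
  have hN1 : 1 ≤ s.N := by linarith [b.F.par.N3]
  have h2 := key ((2:ℝ) ^ (j + 4) * s.Am t ^ 3) (s.D ^ (s.α + 4 * s.e0))
    (Real.exp 4 * Real.exp (-(t - s.tp))) (by positivity)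
    (by positivity) (by positivity) (fun i => s.Z i t) (fun i => s.V i 1 s.tp)
    (fun i => s.V i 1 t)
    (fun i => b.F.Znn i t ht) (fun i => ((b.F.hV i).pos 1 s.tp htp).le)
    (fun i => b.vv4 i 1 t le_rfl hN1 h0)
    (fun i => b.zb2 i t h0)
  have h3 : s.Am t ^ 3 ≤ 1 := pow_le_one₀ hA hA2
  have h32 : 32 / (1 - s.Y 1 t) ^ 2 ≤ 128 := by
    rw [div_le_iff₀ (by positivity)]
    nlinarith
  have hK := K_le b
  have hK0 : 0 ≤ 1 + s.K := by linarith [b.F.par.K1]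
  have h4e : Real.exp 4 ≤ 64 := by
    have e : Real.exp 4 = Real.exp 1 ^ 4 := by
      rw [← Real.exp_nat_mul]; norm_num
    rw [e]
    have h7 := Real.exp_one_lt_d9
    have h8 := Real.exp_pos 1
    calc Real.exp 1 ^ 4 ≤ (2.72 : ℝ) ^ 4 := by
          gcongr
          linarith
      _ ≤ 64 := by norm_num
  rw [pw2 b] at h2
  calc Ep s t = (1 + s.K) * (32 / (1 - s.Y 1 t) ^ 2) *
        ∑ w, (2:ℝ) ^ (j + 4) * s.Am t ^ 3 * s.V w 1 t * ∏ l ∈ Finset.univ.erase w, s.Z l t := rfl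
    _ ≤ (2 * s.D ^ (1 - s.α)) * 128 *
        ((2:ℝ) ^ (j + 4) * s.Am t ^ 3 * (Real.exp 4 * Real.exp (-(t - s.tp))) * j *
          s.D ^ ((s.α + 4 * s.e0) * ((j : ℝ) - 1)) * ∏ i, s.V i 1 s.tp) := by
        refine mul_le_mul (mul_le_mul hK h32 (by positivity) (by positivity)) h2 ?_ (by positivity)
        refine Finset.sum_nonneg (fun w _ => ?_)
        have h4 : 0 ≤ ∏ l ∈ Finset.univ.erase w, s.Z l t :=
          Finset.prod_nonneg (fun i _ => b.F.Znn i t ht)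
        have h5 := ((b.F.hV w).pos 1 t ht).le
        positivity
    _ ≤ (2 * s.D ^ (1 - s.α)) * 128 *
        ((2:ℝ) ^ (j + 4) * 1 * (64 * Real.exp (-(t - s.tp))) * j *
          s.D ^ ((s.α + 4 * s.e0) * ((j : ℝ) - 1)) * ∏ i, s.V i 1 s.tp) := by
        gcongr
    _ = (2 * 128 * 64 * (2:ℝ) ^ (j + 4)) * j *
        (s.D ^ (1 - s.α) * s.D ^ ((s.α + 4 * s.e0) * ((j : ℝ) - 1))) * (∏ i, s.V i 1 s.tp) *
        Real.exp (-(t - s.tp)) := by
        ring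
    _ = _ := by
        have e1 : (2 * 128 * 64 * (2:ℝ) ^ (j + 4)) = (2:ℝ) ^ (j + 18) := by
          have : (2 : ℝ) * 128 * 64 = 2 ^ 14 := by norm_num
          rw [this, ← pow_add]
          congr 1
          ring
        rw [e1, ← Real.rpow_add hD]

theorem nums (b : BE s) : 0 < s.e0 ∧ s.e0 * (1000 * (s.N : ℝ) ^ 2) ≤ 1 - s.α ∧ 0 < s.α ∧ s.α < 1 ∧
    (3 : ℝ) ≤ s.N ∧ (1 : ℝ) ≤ j ∧ (j : ℝ) ≤ s.N ∧ s.e0 * (s.N : ℝ) ≤ 1 / 3000 ∧
    s.e0 * (j : ℝ) ≤ s.e0 * s.N ∧ s.e0 ≤ 1 / 9000 := by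
  have h3 : (3 : ℝ) ≤ s.N := by exact_mod_cast b.F.par.N3
  have h1 := b.F.par.e0le
  rw [le_div_iff₀ (by positivity)] at h1
  have h2 := b.F.par.e0pos
  have h4 := b.F.par.a0
  have h5 := b.F.par.a1'
  have h6 : (1 : ℝ) ≤ j := by exact_mod_cast b.F.par.j1
  have h7 : (j : ℝ) ≤ s.N := by exact_mod_cast b.F.par.jN
  have h8 : s.e0 * (s.N : ℝ) ≤ 1 / 3000 := by
    have : 0 ≤ s.e0 * s.N := by positivity
    nlinarith
  refine ⟨h2, h1, h4, h5, h3, h6, h7, h8, mul_le_mul_of_nonneg_left h7 h2.le, by nlinarith⟩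

theorem one_le_Dpow (b : BE s) {x : ℝ} (hx : 0 ≤ x) : 1 ≤ s.D ^ x := by
  rw [D_rpow b.F]
  have := b.L1
  exact Real.one_le_exp (by positivity)

theorem Dpow_le (b : BE s) {x y : ℝ} (hx : x ≤ y) : s.D ^ x ≤ s.D ^ y := by
  rw [D_rpow b.F, D_rpow b.F]
  have := b.L1
  exact Real.exp_le_exp.2 (mul_le_mul_of_nonneg_right hx (by linarith))

theorem Q_le (b : BE s) {n : ℕ} (hn : n ≤ 4 * j + 40) : (2 : ℝ) ^ n * j ≤ s.D ^ s.e0 := by
  refine le_trans ?_ b.QD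
  unfold Q
  have : (2 : ℝ) ^ n ≤ 2 ^ (4 * j + 40) := pow_le_pow_right₀ (by norm_num) hn
  gcongr

theorem part_a (b : BE s) : ∀ t, 0 ≤ t → t ≤ s.tM →
    s.Eh t ≤ s.D ^ (s.N + 5) * (1 - s.Y 1 t) * ∏ i, s.V i 1 t := by
  intro T h0 h1
  have hD := D_pos b.F
  obtain ⟨n1, n2, n3, n4, n5, n6, n7, n8, n9, n10⟩ := nums b
  have hep := b.F.par.eppos
  have hep1 : s.ep ≤ 1 := by
    have h1 := ep_small b.F
    linarith
  have hPT := P_pos b.F h0
  have hPm : ∀ t, 0 ≤ t → t ≤ T → ∏ i, s.V i 1 t ≤ ∏ i, s.V i 1 T := by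
    intro t ht1 ht2
    refine Finset.prod_le_prod (fun i _ => ((b.F.hV i).pos 1 t ht1).le) (fun i _ => ?_)
    refine (b.vv1 i t T ht1 ht2 ?_).2
    obtain ⟨p1, p2, p3, p4, p5, p6, p7, p8, p9, p10⟩ := params b.F i
    have : 0 ≤ (1 - s.ep) * (s.gam i * s.L) := by
      rw [p8]
      have := b.L1
      exact mul_nonneg (by linarith) (mul_nonneg (by linarith) (by linarith))
    linarith
  set C := (2 : ℝ) ^ (4 * j + 28) * j *
    s.D ^ (1 - s.α + 3 + (s.α + 3 * s.e0) * ((j : ℝ) - 1)) with hC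
  have hC0 : 0 ≤ C := by positivity
  set P := ∏ i, s.V i 1 T with hP
  have h2 := cmp (f := s.Eh) (F := Ep s) (g := fun t => 2 * C * P * (1 - s.Y 1 t))
    (G := fun t => 2 * C * P * m1 s.Y t) le_rfl h0 b.F.Ed
    (fun t ht => by
      have h3 := ((b.yd t ht).const_sub 1).const_mul (2 * C * P)
      refine h3.congr_deriv ?_
      ring)
    (fun t ht1 ht2 => by
      have h3 := Ep_a b ht1 (ht2.trans h1)
      have h4 := hPm t ht1 ht2
      have h5 := y_lt b.F ht1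
      have h6 := b.ym t ht1
      have h7 := b.y1 t ht1 (ht2.trans h1)
      have h8 : 1 - s.Y 1 t ≤ 2 * m1 s.Y t := by nlinarith
      calc Ep s t ≤ C * (1 - s.Y 1 t) * ∏ i, s.V i 1 t := h3
        _ ≤ C * (2 * m1 s.Y t) * P := by
            have := P_pos b.F ht1
            have hm : 0 ≤ m1 s.Y t := by linarith
            gcongr
        _ = _ := by ring)
  rw [b.F.E0, zero_add] at h2
  have hy0 := y_lt b.F (le_refl (0 : ℝ))
  have hyT := y_lt b.F h0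
  have h9 : s.Eh T ≤ 2 * C * P * (1 - s.Y 1 T) := by
    have : 0 ≤ 2 * C * P * (1 - s.Y 1 0) := by positivity
    linarith
  have h10 : 2 * C ≤ s.D ^ (s.N + 5) := by
    have e1 : 2 * C = ((2 : ℝ) ^ (4 * j + 29) * j) *
        s.D ^ (1 - s.α + 3 + (s.α + 3 * s.e0) * ((j : ℝ) - 1)) := by
      rw [hC, show 4 * j + 29 = (4 * j + 28) + 1 by ring, pow_succ]
      ring
    rw [e1]
    calc ((2 : ℝ) ^ (4 * j + 29) * j) *
        s.D ^ (1 - s.α + 3 + (s.α + 3 * s.e0) * ((j : ℝ) - 1))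
        ≤ s.D ^ s.e0 * s.D ^ (1 - s.α + 3 + (s.α + 3 * s.e0) * ((j : ℝ) - 1)) := by
          refine mul_le_mul_of_nonneg_right (Q_le b (by omega)) (by positivity)
      _ = s.D ^ (s.e0 + (1 - s.α + 3 + (s.α + 3 * s.e0) * ((j : ℝ) - 1))) := by
          rw [← Real.rpow_add hD]
      _ ≤ s.D ^ ((s.N : ℝ) + 5) := by
          refine Dpow_le b ?_
          have : (s.α + 3 * s.e0) * ((j : ℝ) - 1) ≤ 1 * ((j : ℝ) - 1) := by
            refine mul_le_mul_of_nonneg_right ?_ (by linarith)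
            have h13 : s.e0 * 9000 ≤ s.e0 * (1000 * (s.N : ℝ) ^ 2) :=
              mul_le_mul_of_nonneg_left (by nlinarith) n1.le
            linarith
          linarith
      _ = s.D ^ (s.N + 5) := by
          rw [← Real.rpow_natCast]
          push_cast
          rfl
  calc s.Eh T ≤ 2 * C * P * (1 - s.Y 1 T) := h9
    _ = (2 * C) * (1 - s.Y 1 T) * P := by ring
    _ ≤ _ := by gcongr

/-- the contribution after `tM` -/
theorem part_b0 (b : BE s) {T : ℝ} (h0 : s.tM ≤ T) (h1 : T ≤ s.tp) :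
    s.Eh T ≤ s.Eh s.tM + 1 / 2 * s.D ^ (1 + ((j:ℝ) - 2) * s.α + (5 * (j : ℝ) - 1) * s.e0) *
      ∏ i, s.V i 1 T := by
  have hD := D_pos b.F
  obtain ⟨n1, n2, n3, n4, n5, n6, n7, n8, n9, n10⟩ := nums b
  obtain ⟨q1, q2, q3, q4, q5⟩ := tims b
  have htM := b.F.tMpos
  have hT0 : 0 ≤ T := by linarith
  have hPT := P_pos b.F hT0
  set P := ∏ i, s.V i 1 T with hP
  set C := (2 : ℝ) ^ (j + 12) * j * s.D ^ (1 - s.α + (s.α + 3 * s.e0) * ((j : ℝ) - 1)) with hC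
  have hC0 : 0 ≤ C := by positivity
  set C2 := C * (s.D ^ (2 * (j : ℝ) * s.e0) * P) with hC2
  have hC20 : 0 ≤ C2 := by positivity
  have h2 := cmp (f := s.Eh) (F := Ep s) (g := fun t => C2 * t)
    (G := fun t => C2) htM.le h0 b.F.Ed
    (fun t ht => by
      have h3 := ((hasDerivWithinAt_id t (Set.Ici 0)).const_mul C2)
      rw [mul_one] at h3
      exact h3)
    (fun t ht1 ht2 => by
      have h3 := Ep_b b ht1 (ht2.trans h1)
      have h4 := P2 b (by linarith) ht2 h1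
      calc Ep s t ≤ C * ∏ i, s.V i 1 t := h3
        _ ≤ C2 := by
            rw [hC2]
            gcongr)
  have hL := b.L1
  have h3 : C2 * T - C2 * s.tM ≤ C2 * (2 * s.L) := by
    rw [← mul_sub]
    refine mul_le_mul_of_nonneg_left (by linarith) hC20
  have h4 : C2 * (2 * s.L) ≤ 1 / 2 * s.D ^ (1 + ((j:ℝ) - 2) * s.α + (5 * (j : ℝ) - 1) * s.e0) *
      P := by
    have e1 : C2 * (2 * s.L) = 1 / 2 * (((2 : ℝ) ^ (j + 14) * j) * s.L *
        (s.D ^ (1 - s.α + (s.α + 3 * s.e0) * ((j : ℝ) - 1)) * s.D ^ (2 * (j : ℝ) * s.e0))) * P := by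
      rw [hC2, hC, show j + 14 = (j + 12) + 2 by ring, pow_add _ (j + 12) 2]
      ring
    rw [e1]
    have h5 : ((2 : ℝ) ^ (j + 14) * j) * s.L *
        (s.D ^ (1 - s.α + (s.α + 3 * s.e0) * ((j : ℝ) - 1)) * s.D ^ (2 * (j : ℝ) * s.e0)) ≤
        s.D ^ (1 + ((j:ℝ) - 2) * s.α + (5 * (j : ℝ) - 1) * s.e0) := by
      calc ((2 : ℝ) ^ (j + 14) * j) * s.L *
          (s.D ^ (1 - s.α + (s.α + 3 * s.e0) * ((j : ℝ) - 1)) * s.D ^ (2 * (j : ℝ) * s.e0))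
          ≤ s.D ^ s.e0 * s.D ^ s.e0 *
          (s.D ^ (1 - s.α + (s.α + 3 * s.e0) * ((j : ℝ) - 1)) * s.D ^ (2 * (j : ℝ) * s.e0)) := by
            refine mul_le_mul_of_nonneg_right ?_ (by positivity)
            exact mul_le_mul (Q_le b (by omega)) b.LD (by linarith) (by positivity)
        _ = _ := by
            rw [← Real.rpow_add hD, ← Real.rpow_add hD, ← Real.rpow_add hD]
            congr 1
            ring
    gcongr
  linarith

theorem X_nonneg (b : BE s) : 0 ≤ 1 + ((j:ℝ) - 2) * s.α := by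
  obtain ⟨n1, n2, n3, n4, n5, n6, n7, n8, n9, n10⟩ := nums b
  nlinarith

theorem part_b (b : BE s) : ∀ t, s.tM ≤ t → t ≤ s.tl →
    s.Eh t ≤ s.D ^ (s.N + 6) * ∏ i, s.V i 1 t := by
  intro T h0 h1
  have hD := D_pos b.F
  obtain ⟨n1, n2, n3, n4, n5, n6, n7, n8, n9, n10⟩ := nums b
  obtain ⟨q1, q2, q3, q4, q5⟩ := tims b
  have htM := b.F.tMpos
  have hTp : T ≤ s.tp := by linarith
  have hPT := P_pos b.F (show 0 ≤ T by linarith)
  have h2 := part_b0 b h0 hTp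
  have h3 := part_a b s.tM htM.le le_rfl
  have h4 := P2 b htM.le h0 hTp
  set P := ∏ i, s.V i 1 T with hP
  have e6 : s.D ^ (s.N + 6) = s.D ^ ((s.N : ℝ) + 6) := by
    rw [← Real.rpow_natCast]
    push_cast
    rfl
  have e5 : s.D ^ (s.N + 5) = s.D ^ ((s.N : ℝ) + 5) := by
    rw [← Real.rpow_natCast]
    push_cast
    rfl
  rw [b.F.htM] at h3
  have h5 : s.Eh s.tM ≤ 1 / 2 * s.D ^ ((s.N : ℝ) + 6) * P := by
    calc s.Eh s.tM ≤ s.D ^ (s.N + 5) * (1 - 1 / 2) * ∏ i, s.V i 1 s.tM := h3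
      _ ≤ s.D ^ (s.N + 5) * (1 - 1 / 2) * (s.D ^ (2 * (j : ℝ) * s.e0) * P) := by
          have : (0 : ℝ) ≤ s.D ^ (s.N + 5) * (1 - 1 / 2) := by
            have := pow_pos hD (s.N + 5)
            nlinarith
          exact mul_le_mul_of_nonneg_left h4 this
      _ = 1 / 2 * (s.D ^ ((s.N : ℝ) + 5) * s.D ^ (2 * (j : ℝ) * s.e0)) * P := by
          rw [e5]; ring
      _ ≤ _ := by
          rw [← Real.rpow_add hD]
          have : s.D ^ ((s.N : ℝ) + 5 + 2 * (j : ℝ) * s.e0) ≤ s.D ^ ((s.N : ℝ) + 6) :=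
            Dpow_le b (by nlinarith)
          gcongr
  have h6 : s.D ^ (1 + ((j:ℝ) - 2) * s.α + (5 * (j : ℝ) - 1) * s.e0) ≤ s.D ^ ((s.N : ℝ) + 6) := by
    refine Dpow_le b ?_
    have : ((j:ℝ) - 2) * s.α ≤ s.N := by nlinarith
    nlinarith
  rw [e6]
  have h7 : 1 / 2 * s.D ^ (1 + ((j:ℝ) - 2) * s.α + (5 * (j : ℝ) - 1) * s.e0) * P ≤
      1 / 2 * s.D ^ ((s.N : ℝ) + 6) * P := by gcongr
  linarith

theorem part_c (b : BE s) : ∀ t, s.tl ≤ t → t ≤ s.tp → s.Eh t ≤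
    s.D ^ (1 + ((j:ℝ) - 2) * s.α + 10 * s.N * s.e0) * ∏ i, s.V i 1 t := by
  intro T h0 h1
  have hD := D_pos b.F
  obtain ⟨n1, n2, n3, n4, n5, n6, n7, n8, n9, n10⟩ := nums b
  obtain ⟨q1, q2, q3, q4, q5⟩ := tims b
  have htM := b.F.tMpos
  have hPT := P_pos b.F (show 0 ≤ T by linarith)
  have h2 := part_b0 b (q1.trans h0) h1
  have h3 := part_a b s.tM htM.le le_rfl
  have h4 := P3 b h0 h1
  have hX := X_nonneg b
  have hL := b.L1
  set P := ∏ i, s.V i 1 T with hP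
  have e5 : s.D ^ (s.N + 5) = s.D ^ ((s.N : ℝ) + 5) := by
    rw [← Real.rpow_natCast]
    push_cast
    rfl
  rw [b.F.htM] at h3
  have h5 : s.Eh s.tM ≤ 1 / 2 * P := by
    calc s.Eh s.tM ≤ s.D ^ (s.N + 5) * (1 - 1 / 2) * ∏ i, s.V i 1 s.tM := h3
      _ ≤ s.D ^ (s.N + 5) * (1 - 1 / 2) *
          (Real.exp (-((s.D ^ s.e1 - 1) * (s.tl - s.tM))) *
            (s.D ^ (2 * (j : ℝ) * s.e0) * P)) := by
          have : (0 : ℝ) ≤ s.D ^ (s.N + 5) * (1 - 1 / 2) := by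
            have := pow_pos hD (s.N + 5)
            nlinarith
          exact mul_le_mul_of_nonneg_left h4 this
      _ = 1 / 2 * (s.D ^ ((s.N : ℝ) + 5) * s.D ^ (2 * (j : ℝ) * s.e0) *
          Real.exp (-((s.D ^ s.e1 - 1) * (s.tl - s.tM)))) * P := by
          rw [e5]; ring
      _ ≤ 1 / 2 * 1 * P := by
          have h6 : s.D ^ ((s.N : ℝ) + 5) * s.D ^ (2 * (j : ℝ) * s.e0) *
              Real.exp (-((s.D ^ s.e1 - 1) * (s.tl - s.tM))) ≤ 1 := by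
            rw [← Real.rpow_add hD, D_rpow b.F, ← Real.exp_add, Real.exp_le_one_iff]
            have h7 := b.e1D
            have h8 : (2 * (s.N : ℝ) + 12) * (s.L / 2) ≤ (s.D ^ s.e1 - 1) * (s.tl - s.tM) :=
              mul_le_mul (by linarith) q5 (by linarith) (by linarith)
            have h9 : ((s.N : ℝ) + 5 + 2 * (j : ℝ) * s.e0) * s.L ≤ ((s.N : ℝ) + 6) * s.L :=
              mul_le_mul_of_nonneg_right (by nlinarith) (by linarith)
            linarith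
          gcongr
      _ = _ := by ring
  have h6 : s.D ^ (1 + ((j:ℝ) - 2) * s.α + (5 * (j : ℝ) - 1) * s.e0) ≤
      s.D ^ (1 + ((j:ℝ) - 2) * s.α + 10 * s.N * s.e0) := by
    refine Dpow_le b ?_
    nlinarith
  have h7 : 1 ≤ s.D ^ (1 + ((j:ℝ) - 2) * s.α + 10 * s.N * s.e0) := by
    refine one_le_Dpow b ?_
    have : 0 ≤ 10 * (s.N : ℝ) * s.e0 := by positivity
    linarith
  have h8 : 1 / 2 * s.D ^ (1 + ((j:ℝ) - 2) * s.α + (5 * (j : ℝ) - 1) * s.e0) * P ≤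
      1 / 2 * s.D ^ (1 + ((j:ℝ) - 2) * s.α + 10 * s.N * s.e0) * P := by gcongr
  have h9 : 1 / 2 * P ≤ 1 / 2 * s.D ^ (1 + ((j:ℝ) - 2) * s.α + 10 * s.N * s.e0) * P := by
    nlinarith
  linarith

theorem part_d (b : BE s) : ∀ t, s.tp ≤ t → s.Eh t ≤
    s.D ^ (1 + ((j:ℝ) - 2) * s.α + 12 * s.N * s.e0) * ∏ i, s.V i 1 s.tp := by
  intro T h0
  have hD := D_pos b.F
  obtain ⟨n1, n2, n3, n4, n5, n6, n7, n8, n9, n10⟩ := nums b
  obtain ⟨q1, q2, q3, q4, q5⟩ := tims b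
  have htM := b.F.tMpos
  have htp : 0 ≤ s.tp := by linarith
  have hPT := P_pos b.F htp
  have h1 := part_c b s.tp (q2.trans q3) le_rfl
  set P := ∏ i, s.V i 1 s.tp with hP
  set C := (2 : ℝ) ^ (j + 18) * j * s.D ^ (1 - s.α + (s.α + 4 * s.e0) * ((j : ℝ) - 1)) with hC
  have hC0 : 0 ≤ C := by positivity
  have h2 := cmp (f := s.Eh) (F := Ep s) (g := fun t => -(C * P * Real.exp (-(t - s.tp))))
    (G := fun t => C * P * Real.exp (-(t - s.tp))) htp h0 b.F.Ed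
    (fun t ht => by
      have h3 : HasDerivAt (fun t : ℝ => -(t - s.tp)) (-1) t :=
        ((hasDerivAt_id' t).sub_const s.tp).neg
      have h4 := (((h3.exp).const_mul (C * P)).neg).hasDerivWithinAt (s := Set.Ici 0)
      refine h4.congr_deriv ?_
      ring)
    (fun t ht1 ht2 => Ep_d b ht1)
  simp only [sub_self, neg_zero, Real.exp_zero, mul_one] at h2
  have h3 : 0 ≤ C * P * Real.exp (-(T - s.tp)) := by positivity
  have h4 : s.Eh T ≤ s.Eh s.tp + C * P := by linarith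
  have h5 : C ≤ 1 / 2 * s.D ^ (1 + ((j:ℝ) - 2) * s.α + 12 * s.N * s.e0) := by
    have e1 : C = 1 / 2 * (((2 : ℝ) ^ (j + 19) * j) *
        s.D ^ (1 - s.α + (s.α + 4 * s.e0) * ((j : ℝ) - 1))) := by
      rw [hC, show j + 19 = (j + 18) + 1 by ring, pow_succ]
      ring
    rw [e1]
    have h6 : ((2 : ℝ) ^ (j + 19) * j) *
        s.D ^ (1 - s.α + (s.α + 4 * s.e0) * ((j : ℝ) - 1)) ≤
        s.D ^ (1 + ((j:ℝ) - 2) * s.α + 12 * s.N * s.e0) := by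
      calc ((2 : ℝ) ^ (j + 19) * j) * s.D ^ (1 - s.α + (s.α + 4 * s.e0) * ((j : ℝ) - 1))
          ≤ s.D ^ s.e0 * s.D ^ (1 - s.α + (s.α + 4 * s.e0) * ((j : ℝ) - 1)) := by
            refine mul_le_mul_of_nonneg_right (Q_le b (by omega)) (by positivity)
        _ = s.D ^ (s.e0 + (1 - s.α + (s.α + 4 * s.e0) * ((j : ℝ) - 1))) := by
            rw [← Real.rpow_add hD]
        _ ≤ _ := by
            refine Dpow_le b ?_
            nlinarith
    gcongr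
  have h6 : s.D ^ (1 + ((j:ℝ) - 2) * s.α + 10 * s.N * s.e0) ≤
      1 / 2 * s.D ^ (1 + ((j:ℝ) - 2) * s.α + 12 * s.N * s.e0) := by
    have h7 : 2 ≤ s.D ^ s.e0 := by
      have := Q_le b (n := 1) (by omega)
      nlinarith
    have h8 : s.D ^ s.e0 * s.D ^ (1 + ((j:ℝ) - 2) * s.α + 10 * s.N * s.e0) ≤
        s.D ^ (1 + ((j:ℝ) - 2) * s.α + 12 * s.N * s.e0) := by
      rw [← Real.rpow_add hD]
      refine Dpow_le b ?_
      nlinarith
    have h9 : 0 < s.D ^ (1 + ((j:ℝ) - 2) * s.α + 10 * s.N * s.e0) := by positivity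
    nlinarith
  calc s.Eh T ≤ s.Eh s.tp + C * P := h4
    _ ≤ s.D ^ (1 + ((j:ℝ) - 2) * s.α + 10 * s.N * s.e0) * P + C * P := by linarith
    _ ≤ (1 / 2 * s.D ^ (1 + ((j:ℝ) - 2) * s.α + 12 * s.N * s.e0)) * P +
        (1 / 2 * s.D ^ (1 + ((j:ℝ) - 2) * s.α + 12 * s.N * s.e0)) * P := by gcongr
    _ = _ := by ring

theorem eb (h1 : S_CB) (h2 : S_VV) (h3 : S_ZB) (h4 : S_TM) (h5 : S_YF) : S_EB := by
  intro α e0 ep e1 N j hP he1
  obtain ⟨K0, hK0⟩ := h1 α e0 ep e1 N j hP he1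
  obtain ⟨K2, hK2⟩ := h2 α e0 ep e1 N j hP he1
  obtain ⟨K3, hK3⟩ := h3 α e0 ep e1 N j hP he1
  obtain ⟨a1, a2, a3, a4, a5, a6, a7, a8, a9⟩ := hP
  have hDt : Tendsto (fun K : ℝ => DK α K) atTop atTop := by
    unfold DK
    exact tendsto_rpow_atTop (by
      have : 0 < 1 - α := by linarith
      positivity)
  have hpow : ∀ x c : ℝ, 0 < x → ∀ᶠ K : ℝ in atTop, c ≤ DK α K ^ x := fun x c hx =>
    ((tendsto_rpow_atTop hx).comp hDt).eventually_ge_atTop c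
  have hLt : ∀ᶠ K : ℝ in atTop, 1 ≤ LK α K := by
    have : Tendsto (fun K : ℝ => LK α K) atTop atTop := by
      unfold LK
      exact Real.tendsto_log_atTop.atTop_div_const (by linarith)
    exact this.eventually_ge_atTop 1
  have hlog : ∀ᶠ K : ℝ in atTop, LK α K ≤ DK α K ^ e0 := by
    have h6 := (isLittleO_log_rpow_atTop a6).bound (show (0 : ℝ) < 1 by norm_num)
    have h7 := hDt.eventually h6
    filter_upwards [h7, eventually_gt_atTop (0 : ℝ)] with K hK hK0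
    have e : Real.log (DK α K) = LK α K := by
      unfold DK LK
      rw [Real.log_rpow hK0]
      ring
    rw [e, one_mul] at hK
    have hDp : 0 < DK α K := by unfold DK; positivity
    rw [Real.norm_of_nonneg (Real.rpow_nonneg hDp.le e0)] at hK
    exact (le_abs_self _).trans hK
  obtain ⟨K1, hK1⟩ := eventually_atTop.1 (((hpow e0 (Q j) a6).and
    ((hpow e1 (2 * N + 13) he1).and (hLt.and hlog))).and
      ((eventually_ge_atTop K0).and ((eventually_ge_atTop K2).and (eventually_ge_atTop K3))))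
  refine ⟨K1, fun s hs1 hs2 hs3 hs4 hs5 hs6 hF => ?_⟩
  obtain ⟨⟨b1, b2, b3, b4⟩, b5, b6, b7⟩ := hK1 s.K hs6
  obtain ⟨c1, c2, c3, c4, c5⟩ := hK0 s hs1 hs2 hs3 hs4 hs5 b5 hF
  obtain ⟨d1, d2, d3, d4, d5, d6, d7⟩ := hK2 s hs1 hs2 hs3 hs4 hs5 b6 hF
  obtain ⟨f1, f2⟩ := hK3 s hs1 hs2 hs3 hs4 hs5 b7 hF
  subst hs1 hs2 hs3 hs4 hs5
  obtain ⟨g1, g2, g3, g4, g5, g6, g7⟩ := h5 s.α s.z s.Y a1 a2 (by linarith [hF.z2]) hF.z1 hF.hY
  obtain ⟨k1, k2⟩ := h4 s.α s.z s.Y a1 a2 hF.z2 hF.z1 hF.hY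
  obtain ⟨k3, k4, k5⟩ := k2 s.tM hF.tMpos.le hF.htM
  have b : BE s := ⟨hF, b3, b4, b1, b2, c4, d1, d2, d3, d4, f1, f2,
    fun t ht1 ht2 => (k5 t ht1 ht2).2.2.2,
    fun t ht => by
      have h := g6 1 (show s.tM ∈ Set.Ici (0:ℝ) from hF.tMpos.le)
        (show t ∈ Set.Ici (0:ℝ) from hF.tMpos.le.trans ht) ht
      rw [hF.htM] at h
      linarith,
    fun t ht => (g4 t ht).1, g5⟩
  exact ⟨part_a b, part_b b, part_c b, part_d b⟩

end Pool.Agent.TH346.J2261
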